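import Pool.Agent.Q100.SL.Stm

set_option autoImplicit false

open Finset

namespace Q75.SL

open Q100.SL

theorem sg_sum (p : ℝ) (θ : Bool) : ∑ s : Bool, sg p θ s = 1 := by
  rw [Fintype.sum_bool]
  cases θ <;> simp [sg]

theorem sg_nonneg {p : ℝ} (h0 : 0 ≤ p) (h1 : p ≤ 1) (θ s : Bool) : 0 ≤ sg p θ s := by
  unfold sg; split_ifs <;> linarith

theorem pact_nonneg {p : ℝ} (h0 : 0 ≤ p) (h1 : p ≤ 1) (a : Bool → ℝ) (θ b : Bool) : 0 ≤ pact p a θ b := by
  unfold pact
  apply sum_nonneg
  intro s _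
  split_ifs
  · exact sg_nonneg h0 h1 _ _
  · exact le_rfl

theorem law_nonneg {p : ℝ} (h0 : 0 ≤ p) (h1 : p ≤ 1) (N : ℕ → Finset ℕ) (n : ℕ) (θ : Bool) (z : Finset ℕ) :
    0 ≤ law p N n θ z := by
  induction n generalizing θ z with
  | zero => simp [law]
  | succ n ih =>
    rw [law]
    exact mul_nonneg (ih θ z) (pact_nonneg h0 h1 _ _ _)

/-- expectations of nonnegative functions are nonnegative for a realizable family -/
theorem rl_nonneg {p : ℝ} (hp : 1 / 2 < p) (hp1 : p < 1) {Ω ι : Type} [Fintype Ω]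
    {W : Bool → Ω → ℝ} {X : ι → Ω → Bool} (h : Rl p W X) (θ : Bool) (F : (ι → Bool) → ℝ)
    (hF : ∀ x, 0 ≤ F x) : 0 ≤ ∑ ω, W θ ω * F (fun i => X i ω) := by
  have hw : Win p (fun _ => ∅) 0 ∅ ∅ := by
    constructor <;> simp [mg, law] <;> linarith
  obtain ⟨N', n', o, S, hf⟩ := h (fun _ => ∅) 0 ∅ ∅ (fun j hj => by omega) (by simp) (by simp) hw
  have h1 := hf.lw ∅ (by simp) (by simp) θ F
  have h2 : law p (fun _ => (∅ : Finset ℕ)) 0 θ ∅ = 1 := rfl
  rw [h2, one_mul] at h1
  rw [← h1]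
  apply sum_nonneg
  intro z _
  exact mul_nonneg (law_nonneg (by linarith) hp1.le _ _ _ _) (hF _)

theorem wt_eq {Ω ι κ : Type} [Fintype Ω] [Fintype κ] (W : Bool → Ω → ℝ) (X : ι → Ω → Bool)
    (J : κ → ι) (θ : Bool) (y : κ → Bool) :
    wt W X J θ y = ∑ ω, W θ ω * (fun x : ι → Bool => if (∀ k, x (J k) = y k) then (1:ℝ) else 0)
      (fun i => X i ω) := by
  unfold wt
  apply sum_congr rfl
  intro ω _
  simp

theorem wt_nonneg {p : ℝ} (hp : 1 / 2 < p) (hp1 : p < 1) {Ω ι κ : Type} [Fintype Ω] [Fintype κ]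
    {W : Bool → Ω → ℝ} {X : ι → Ω → Bool} (h : Rl p W X) (J : κ → ι) (θ : Bool) (y : κ → Bool) :
    0 ≤ wt W X J θ y := by
  rw [wt_eq]
  exact rl_nonneg hp hp1 h θ (fun x : ι → Bool => if (∀ k, x (J k) = y k) then (1:ℝ) else 0)
    (fun x => by split_ifs <;> norm_num)

/-- one decision -/
theorem adm_one (h1 : S_agent) (h2 : S_law) (p : ℝ) (hp : 1 / 2 < p) (hp1 : p < 1) (Ω ι : Type) [Fintype Ω]
    (W : Bool → Ω → ℝ) (X : ι → Ω → Bool) (hR : Rl p W X) (Z : Ω → Bool) (hZ : Adm p W X Z) :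
    Rl p W (fun (i : Option ι) ω => i.elim (Z ω) (fun i => X i ω)) := by
  obtain ⟨κ, _, J, φ, hφ, hc, ht, hf⟩ := hZ
  have hA := h1 p hp hp1 Ω ι κ W X J (fun y _ => φ y) hR (fun b _ => hc b) (by
    intro y s hy
    have h := ht y hy
    have n1 := wt_nonneg hp hp1 hR J true y
    have n0 := wt_nonneg hp hp1 hR J false y
    cases s
    · simp only [sg]
      simp
      nlinarith
    · simp only [sg]
      simp
      have h3 : (1 - p) ^ 2 * wt W X J true y ≤ p ^ 2 * wt W X J true y := by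
        apply mul_le_mul_of_nonneg_right _ n1
        nlinarith
      have h4 : wt W X J false y ≤ wt W X J true y := by
        have : p ^ 2 * wt W X J false y ≤ p ^ 2 * wt W X J true y := by linarith
        exact le_of_mul_le_mul_left this (by positivity)
      have h5 : 0 ≤ p * (1 - p) := by nlinarith
      nlinarith [mul_le_mul_of_nonneg_left h4 h5]) (by
    intro y s hy
    have h := hf y hy
    have n1 := wt_nonneg hp hp1 hR J true y
    have n0 := wt_nonneg hp hp1 hR J false y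
    cases s
    · simp only [sg]
      simp
      have h3 : (1 - p) ^ 2 * wt W X J false y ≤ p ^ 2 * wt W X J false y := by
        apply mul_le_mul_of_nonneg_right _ n0
        nlinarith
      have h4 : wt W X J true y ≤ wt W X J false y := by
        have : p ^ 2 * wt W X J true y ≤ p ^ 2 * wt W X J false y := by linarith
        exact le_of_mul_le_mul_left this (by positivity)
      have h5 : 0 ≤ p * (1 - p) := by nlinarith
      nlinarith [mul_le_mul_of_nonneg_left h4 h5]
    · simp only [sg]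
      simp
      nlinarith)
  refine h2 p (Ω × Bool) Ω (Option ι) (Option ι) _ _ _ _ id hA ?_
  intro θ F
  rw [Fintype.sum_prod_type]
  apply sum_congr rfl
  intro ω _
  have e : ∀ s : Bool, (fun i : Option ι => (id i).elim (φ (fun k => X (J k) ω)) (fun i => X i ω)) =
      (fun i : Option ι => i.elim (Z ω) (fun i => X i ω)) := by
    intro s; funext i; rw [hφ]; rfl
  have e2 : ∀ s : Bool, W θ ω * sg p θ s * F (fun i : Option ι => (id i).elim (φ (fun k => X (J k) ω)) (fun i => X i ω)) =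
      W θ ω * F (fun i : Option ι => i.elim (Z ω) (fun i => X i ω)) * sg p θ s := by
    intro s; rw [e s]; ring
  calc ∑ s : Bool, W θ ω * sg p θ s * F (fun i : Option ι => (id i).elim (φ (fun k => X (J k) ω)) (fun i => X i ω))
      = ∑ s : Bool, W θ ω * F (fun i : Option ι => i.elim (Z ω) (fun i => X i ω)) * sg p θ s :=
        sum_congr rfl fun s _ => e2 s
    _ = _ := by rw [← mul_sum, sg_sum, mul_one]

theorem adm (h1 : S_agent) (h2 : S_law) : S_adm := by
  intro p hp hp1 Ω ι _ W X hR K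
  induction K with
  | zero =>
    intro Z _
    refine h2 p Ω Ω ι (ι ⊕ Fin 0) W X W _ (fun i => i.elim id (fun j => j.elim0)) hR ?_
    intro θ F
    apply sum_congr rfl
    intro ω _
    congr 2
    funext i
    rcases i with i | j
    · rfl
    · exact j.elim0
  | succ K ih =>
    intro Z hZ
    have hY := ih (fun k => Z k.castSucc) (fun k => hZ _)
    have hlast : Adm p W (Sum.elim X (fun k => Z (Fin.castSucc k))) (Z (Fin.last K)) := by
      obtain ⟨κ, i, J, φ, hφ, hc, ht, hf⟩ := hZ (Fin.last K)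
      exact ⟨κ, i, fun k => Sum.inl (J k), φ, hφ, hc, ht, hf⟩
    have h3 := adm_one h1 h2 p hp hp1 Ω (ι ⊕ Fin K) W _ hY _ hlast
    refine h2 p Ω Ω (Option (ι ⊕ Fin K)) (ι ⊕ Fin (K + 1)) W _ W _
      (fun i => i.elim (fun i => some (Sum.inl i)) (fun j => Fin.lastCases none (fun k => some (Sum.inr k)) j)) h3 ?_
    intro θ F
    apply sum_congr rfl
    intro ω _
    congr 2
    funext i
    rcases i with i | j
    · rfl
    · refine Fin.lastCases ?_ (fun k => ?_) j
      · simp
      · simp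

end Q75.SL
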