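import Pool.Agent.Q100.SL.Stm

set_option autoImplicit false

open Finset

namespace Q75.SL

open Q100.SL

/-- the family of the first stage -/
def f1 {Ω : Type} (m : ℕ) (X : ℕ → Ω → Bool) : (ℕ ⊕ (Unit ⊕ (Unit ⊕ Fin m))) → Ω × Oc m → Bool :=
  Sum.elim (fun i ω => X i ω.1) (Sum.elim (fun _ ω => ω.2.1) (Sum.elim (fun _ ω => ω.2.2.1) (fun k ω => ω.2.2.2 k)))

theorem copy (h1 : S_prod) (h2 : S_law) (h3 : S_bits) (h4 : S_adm) (h5 : S_admf) (h6 : S_admd)
    (h7 : S_admg) : S_copy := by
  intro p P R a m hPar hRR hRa Ω _ W X hM hX T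
  have hp := hPar.hp
  have hp1 := hPar.hp1
  have b1 := h3 p hp hp1 a hRa m
  have b2 := h1 p hp hp1 _ _ _ _ _ _ _ _ hRR b1
  have b3 := h1 p hp hp1 _ _ _ _ _ _ _ _ hRR b2
  have b4 := h1 p hp hp1 _ _ _ _ _ _ _ _ hX b3
  have r1 : Rl p (Wx W R a m) (f1 m X) := by
    refine h2 p _ (Ω × Oc m) _ _ _ _ (Wx W R a m) (f1 m X) id b4 ?_
    intro θ F
    apply sum_congr rfl
    rintro ⟨ω, o1, o2, u⟩ _
    have e : (fun i => (Sum.elim (fun i (ω : Ω × Oc m) => X i ω.1) (fun i (ω : Ω × Oc m) =>
        (Sum.elim (fun (_ : Unit) (ω : Oc m) => ω.1) (fun i (ω : Oc m) =>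
          (Sum.elim (fun (_ : Unit) (ω : Bool × (Fin m → Bool)) => ω.1)
            (fun (i : Fin m) (ω : Bool × (Fin m → Bool)) => ω.2 i)) i ω.2)) i ω.2)) (id i) (ω, o1, o2, u)) =
        (fun i => f1 m X i (ω, o1, o2, u)) := by
      funext i
      rcases i with i | i | i | i <;> rfl
    have e2 : W θ ω * (sg R θ o1 * (sg R θ o2 * ∏ i, sg a θ (u i))) = Wx W R a m θ (ω, o1, o2, u) := by
      simp only [Wx, Wc]; ring
    rw [← e2]
    exact congrArg (fun g => W θ ω * (sg R θ o1 * (sg R θ o2 * ∏ i, sg a θ (u i))) * F g) e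
  have r2 := h4 p hp hp1 _ _ _ _ r1 m (fun k ω => rr (X 0 ω.1) (X 1 ω.1) (ω.2.2.2 k)) (by
    intro k
    exact h5 p P R a m hPar Ω W (X 0) (X 1) hM _ (f1 m X) (Sum.inl 0) (Sum.inl 1)
      (Sum.inr (Sum.inr (Sum.inr k))) k (fun _ => rfl) (fun _ => rfl) (fun _ => rfl))
  have r3 := h4 p hp hp1 _ _ _ _ r2 m
    (fun k ω => dd (X 0 ω.1) (X 1 ω.1) ω.2.1 ω.2.2.1 (ω.2.2.2 k)) (by
    intro k
    exact h6 p P R a m hPar Ω W (X 0) (X 1) hM _ _ (Sum.inl (Sum.inr (Sum.inl ())))
      (Sum.inl (Sum.inr (Sum.inr (Sum.inl ())))) (Sum.inl (Sum.inr (Sum.inr (Sum.inr k))))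
      (Sum.inr k) k (fun _ => rfl) (fun _ => rfl) (fun _ => rfl) (fun _ => rfl))
  have r4 := h4 p hp hp1 _ _ _ _ r3 1 (fun _ ω => gg m (X 0 ω.1) (X 1 ω.1) ω.2) (by
    intro k
    exact h7 p P R a m hPar Ω W (X 0) (X 1) hM _ _ (fun k => Sum.inr k) (fun _ _ => rfl))
  refine h2 p _ _ _ ℕ _ _ _ _ (fun i => if i = T then Sum.inr 0 else Sum.inl (Sum.inl (Sum.inl (Sum.inl i)))) r4 ?_
  intro θ F
  apply sum_congr rfl
  intro ω _
  congr 2
  funext i
  by_cases hi : i = T
  · simp [hi]
  · simp [hi, f1]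

theorem sg_sum' (p : ℝ) (θ : Bool) : ∑ s : Bool, sg p θ s = 1 := by
  rw [Fintype.sum_bool]
  cases θ <;> simp [sg]

theorem bits_sum (a : ℝ) (m : ℕ) (θ : Bool) : ∑ u : Fin m → Bool, ∏ i, sg a θ (u i) = 1 := by
  have h := Finset.prod_univ_sum (ι := Fin m) (fun _ => (univ : Finset Bool)) (fun _ s => sg a θ s)
  rw [Fintype.piFinset_univ] at h
  rw [← h]
  simp only [sg_sum', prod_const_one]

theorem Wc_sum (R a : ℝ) (m : ℕ) (θ : Bool) : ∑ ω : Oc m, Wc R a m θ ω = 1 := by
  unfold Wc
  rw [Fintype.sum_prod_type]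
  have h1 : ∀ x : Bool, ∑ y : Bool × (Fin m → Bool), sg R θ x * sg R θ y.1 * ∏ i, sg a θ (y.2 i) = sg R θ x := by
    intro x
    rw [Fintype.sum_prod_type]
    have h2 : ∀ y : Bool, ∑ u : Fin m → Bool, sg R θ x * sg R θ y * ∏ i, sg a θ (u i) = sg R θ x * sg R θ y := by
      intro y
      rw [← mul_sum, bits_sum, mul_one]
    simp only [h2]
    rw [← mul_sum, sg_sum', mul_one]
  simp only [h1]
  exact sg_sum' R θ

theorem gadget (h1 : S_prod) (h2 : S_law) (h3 : S_copy) (h4 : S_kappa) (h5 : S_num) : S_gadget := by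
  obtain ⟨P, R, a, hP, hR, ha, hPar, hk1, hk2⟩ := h5
  have hp : (1:ℝ) / 2 < 51 / 100 := by norm_num
  have hp1 : (51:ℝ) / 100 < 1 := by norm_num
  set κ₁ : ℝ := 1 - (1 - R) ^ 2 * maj 15 a with hκ₁
  set κ₀ : ℝ := 1 - R ^ 2 * (1 - maj 15 a) with hκ₀
  have hP1 := hPar.hP
  have hP2 := hPar.hP1
  refine ⟨P ^ 2, (1 - P) ^ 2, κ₁, κ₀, by nlinarith, by nlinarith, ?_, hk1, ?_, ?_⟩
  · by_contra hneg
    push Not at hneg
    nlinarith
  · norm_num at hk2 ⊢
    linarith
  intro T
  suffices h : ∃ (Ω : Type) (_ : Fintype Ω) (W : Bool → Ω → ℝ)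
      (X : ℕ → Ω → Bool), Rl (51 / 100) W X ∧ MargV P W (X 0) (X 1) ∧ ∀ t ≤ T, ∀ b θ : Bool,
        (∑ ω, if (∀ i < t + 2, X i ω = b) then W θ ω else 0) =
          if θ = b then P ^ 2 * κ₁ ^ t else (1 - P) ^ 2 * κ₀ ^ t by
    obtain ⟨Ω, i, W, X, a1, -, a3⟩ := h
    exact ⟨Ω, i, W, X, a1, a3⟩
  induction T with
  | zero =>
    have b1 := h1 _ hp hp1 _ _ _ _ _ _ _ _ hP hP
    refine ⟨Bool × Bool, inferInstance, fun θ ω => sg P θ ω.1 * sg P θ ω.2,
      fun i ω => if i = 1 then ω.2 else ω.1, ?_, ?_, ?_⟩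
    · refine h2 _ _ _ _ ℕ _ _ _ _ (fun i => if i = 1 then Sum.inr () else Sum.inl ()) b1 ?_
      intro θ F
      apply sum_congr rfl
      intro ω _
      congr 2
      funext i
      by_cases hi : i = 1
      · simp [hi]
      · simp [hi]
    · intro θ F
      rw [Fintype.sum_prod_type]
      simp
    · intro t ht b θ
      obtain rfl : t = 0 := by omega
      have h6 : ∀ ω : Bool × Bool, (∀ i < 0 + 2, (if i = 1 then ω.2 else ω.1) = b) ↔ (ω.1 = b ∧ ω.2 = b) := by
        intro ω
        constructor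
        · intro h
          exact ⟨by simpa using h 0 (by norm_num), by simpa using h 1 (by norm_num)⟩
        · rintro ⟨h, h'⟩ i _
          split_ifs
          · exact h'
          · exact h
      simp only [h6]
      rw [Fintype.sum_prod_type]
      simp only [Fintype.sum_bool]
      cases θ <;> cases b <;> simp [sg] <;> ring
  | succ T ih =>
    obtain ⟨Ω, i, W, X, a1, a2, a3⟩ := ih
    have h6 := h3 _ P R a 15 hPar hR ha Ω W X a2 a1 (T + 2)
    refine ⟨Ω × Oc 15, inferInstance, Wx W R a 15, _, h6, ?_, ?_⟩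
    · intro θ F
      rw [← a2 θ F, Fintype.sum_prod_type]
      apply sum_congr rfl
      intro ω _
      have e : ∀ c : Oc 15, Wx W R a 15 θ (ω, c) * F
          (if 0 = T + 2 then gg 15 (X 0 ω) (X 1 ω) c else X 0 ω)
          (if 1 = T + 2 then gg 15 (X 0 ω) (X 1 ω) c else X 1 ω) =
          W θ ω * F (X 0 ω) (X 1 ω) * Wc R a 15 θ c := by
        intro c
        rw [if_neg (by omega), if_neg (by omega)]
        simp only [Wx]; ring
      calc _ = ∑ c : Oc 15, W θ ω * F (X 0 ω) (X 1 ω) * Wc R a 15 θ c := sum_congr rfl fun c _ => e c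
        _ = _ := by rw [← mul_sum, Wc_sum, mul_one]
    · intro t ht b θ
      rw [Fintype.sum_prod_type]
      rcases Nat.lt_or_ge t (T + 1) with ht1 | ht1
      · rw [← a3 t (by omega) b θ]
        apply sum_congr rfl
        intro ω _
        have e : ∀ c : Oc 15, (∀ i < t + 2, (if i = T + 2 then gg 15 (X 0 ω) (X 1 ω) c else X i ω) = b) ↔
            (∀ i < t + 2, X i ω = b) := by
          intro c
          constructor
          · intro h i hi
            have := h i hi
            rwa [if_neg (by omega)] at this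
          · intro h i hi
            rw [if_neg (by omega)]; exact h i hi
        simp only [e]
        by_cases hc : ∀ i < t + 2, X i ω = b
        · simp only [if_pos hc, Wx]
          rw [← mul_sum, Wc_sum, mul_one]
        · simp only [if_neg hc, sum_const_zero]
      · obtain rfl : t = T + 1 := by omega
        have h7 := a3 T le_rfl b θ
        have h8 := h4 R a 15 (by decide) θ b
        have e : ∀ (ω : Ω) (c : Oc 15),
            (if (∀ i < T + 1 + 2, (if i = T + 2 then gg 15 (X 0 ω) (X 1 ω) c else X i ω) = b) then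
              Wx W R a 15 θ (ω, c) else 0) =
            (if (∀ i < T + 2, X i ω = b) then W θ ω else 0) *
              (if gg 15 b b c = b then Wc R a 15 θ c else 0) := by
          intro ω c
          by_cases hc : ∀ i < T + 2, X i ω = b
          · have x0 := hc 0 (by omega)
            have x1 := hc 1 (by omega)
            rw [if_pos hc]
            by_cases hg : gg 15 b b c = b
            · rw [if_pos hg, if_pos]
              · rfl
              · intro i hi
                by_cases hiT : i = T + 2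
                · rw [if_pos hiT, x0, x1]; exact hg
                · rw [if_neg hiT]; exact hc i (by omega)
            · rw [if_neg hg, mul_zero, if_neg]
              intro h
              have := h (T + 2) (by omega)
              rw [if_pos rfl, x0, x1] at this
              exact hg this
          · rw [if_neg hc, zero_mul, if_neg]
            intro h
            apply hc
            intro i hi
            have := h i (by omega)
            rwa [if_neg (by omega)] at this
        have e2 : ∑ ω : Ω, ∑ c : Oc 15,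
            (if (∀ i < T + 1 + 2, (if i = T + 2 then gg 15 (X 0 ω) (X 1 ω) c else X i ω) = b) then
              Wx W R a 15 θ (ω, c) else 0) =
            (∑ ω : Ω, if (∀ i < T + 2, X i ω = b) then W θ ω else 0) *
              (∑ c : Oc 15, if gg 15 b b c = b then Wc R a 15 θ c else 0) := by
          rw [sum_mul_sum]
          exact sum_congr rfl fun ω _ => sum_congr rfl fun c _ => e ω c
        refine Eq.trans e2 ?_
        rw [h7, h8]
        split_ifs
        · rw [← hκ₁]; ring
        · rw [← hκ₀]; ring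

end Q75.SL
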