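import Pool.Agent.Q100.SL.Stm

set_option autoImplicit false

open Finset

namespace Q75.SL

open Q100.SL

theorem sum_cons {m : ℕ} (G : (Fin (m + 1) → Bool) → ℝ) :
    ∑ v, G v = ∑ s : Bool, ∑ u : Fin m → Bool, G (Fin.cons s u) := by
  rw [← (Fin.consEquiv (fun _ : Fin (m + 1) => Bool)).sum_comp G, Fintype.sum_prod_type]
  rfl

theorem ones_eq {m : ℕ} (u : Fin m → Bool) : ones u = ∑ i, if u i = true then 1 else 0 := by
  unfold ones
  rw [card_filter]

theorem ones_cons {m : ℕ} (s : Bool) (u : Fin m → Bool) :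
    ones (Fin.cons s u : Fin (m + 1) → Bool) = (if s = true then 1 else 0) + ones u := by
  rw [ones_eq, ones_eq, Fin.sum_univ_succ]
  simp

theorem ones_le {m : ℕ} (u : Fin m → Bool) : ones u ≤ m := by
  unfold ones
  exact (card_filter_le _ _).trans (by simp)

theorem ones_const {m : ℕ} (b : Bool) : ones (fun _ : Fin m => b) = if b = true then m else 0 := by
  rw [ones_eq]
  cases b <;> simp

theorem card_not {m : ℕ} (u : Fin m → Bool) : (univ.filter fun i => ¬ u i = true).card = m - ones u := by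
  have h := card_filter_add_card_filter_not (s := (univ : Finset (Fin m))) (fun i => u i = true)
  rw [card_univ, Fintype.card_fin] at h
  unfold ones
  omega

theorem prod_true {m : ℕ} (x : ℝ) (y : Fin m → Bool) :
    ∏ i, sg x true (y i) = x ^ ones y * (1 - x) ^ (m - ones y) := by
  unfold sg
  rw [prod_ite, prod_const, prod_const, card_not]
  rfl

theorem prod_false {m : ℕ} (x : ℝ) (y : Fin m → Bool) :
    ∏ i, sg x false (y i) = (1 - x) ^ ones y * x ^ (m - ones y) := by
  have h : ∀ i, sg x false (y i) = if y i = true then 1 - x else x := by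
    intro i
    unfold sg
    cases y i <;> simp
  simp only [h]
  rw [prod_ite, prod_const, prod_const, card_not]
  rfl

/-- the majority -/
def mj {m : ℕ} (v : Fin m → Bool) : Bool := decide (m < 2 * ones v)

theorem ones_not {m : ℕ} (v : Fin m → Bool) : ones (fun i => !v i) = m - ones v := by
  have h : (fun i => !v i) = fun i => !v i := rfl
  rw [← card_not]
  unfold ones
  congr 1
  ext i
  simp

theorem mj_not {m : ℕ} (hm : Odd m) (v : Fin m → Bool) : mj (fun i => !v i) = !mj v := by
  unfold mj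
  rw [ones_not]
  have h := ones_le v
  obtain ⟨k, hk⟩ := hm
  by_cases h1 : m < 2 * ones v
  · have h2 : ¬ m < 2 * (m - ones v) := by omega
    simp [h1, h2]
  · have h2 : m < 2 * (m - ones v) := by omega
    simp [h1, h2]

theorem sg_not (a : ℝ) (s : Bool) : sg a false (!s) = sg a true s := by
  cases s <;> simp [sg]

/-- the law of the majority -/
theorem maj_law (h4 : S_count) {m : ℕ} (hm : Odd m) (a : ℝ) (θ : Bool) (F : Bool → ℝ) :
    ∑ v : Fin m → Bool, (∏ i, sg a θ (v i)) * F (mj v) = ∑ b : Bool, sg (maj m a) θ b * F b := by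
  have htrue : ∀ F : Bool → ℝ, ∑ v : Fin m → Bool, (∏ i, sg a true (v i)) * F (mj v) =
      maj m a * F true + (1 - maj m a) * F false := by
    intro F
    have h := h4 m a (fun j => F (decide (m < 2 * j)))
    have h' : ∑ v : Fin m → Bool, (∏ i, sg a true (v i)) * F (mj v) =
        ∑ j ∈ range (m + 1), (m.choose j : ℝ) * a ^ j * (1 - a) ^ (m - j) * F (decide (m < 2 * j)) := h
    rw [h']
    have htot : ∑ j ∈ range (m + 1), (m.choose j : ℝ) * a ^ j * (1 - a) ^ (m - j) = 1 := by
      have := add_pow a (1 - a) m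
      rw [add_sub_cancel, one_pow] at this
      refine (sum_congr rfl fun j _ => ?_).trans this.symm
      ring
    rw [← sum_filter_add_sum_filter_not (range (m + 1)) (fun j => m < 2 * j)] at htot ⊢
    have e1 : ∑ j ∈ (range (m + 1)).filter (fun j => m < 2 * j),
        (m.choose j : ℝ) * a ^ j * (1 - a) ^ (m - j) * F (decide (m < 2 * j)) = maj m a * F true := by
      unfold maj
      rw [sum_mul]
      apply sum_congr rfl
      intro j hj
      have := (mem_filter.mp hj).2
      simp [this]
    have e2 : ∑ j ∈ (range (m + 1)).filter (fun j => ¬ m < 2 * j),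
        (m.choose j : ℝ) * a ^ j * (1 - a) ^ (m - j) * F (decide (m < 2 * j)) = (1 - maj m a) * F false := by
      have : 1 - maj m a = ∑ j ∈ (range (m + 1)).filter (fun j => ¬ m < 2 * j),
          (m.choose j : ℝ) * a ^ j * (1 - a) ^ (m - j) := by
        unfold maj; linarith
      rw [this, sum_mul]
      apply sum_congr rfl
      intro j hj
      have := (mem_filter.mp hj).2
      simp [this]
    rw [e1, e2]
  rw [Fintype.sum_bool]
  cases θ
  · have e : ∑ v : Fin m → Bool, (∏ i, sg a false (v i)) * F (mj v) =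
        ∑ v : Fin m → Bool, (∏ i, sg a true (v i)) * F (!mj v) := by
      have hinv : Function.Involutive (fun (v : Fin m → Bool) => fun i => !v i) := by
        intro v; funext i; simp
      rw [← Equiv.sum_comp (Function.Involutive.toPerm (fun (v : Fin m → Bool) => fun i => !v i) hinv) (fun v : Fin m → Bool => (∏ i, sg a false (v i)) * F (mj v))]
      apply sum_congr rfl
      intro v _
      have : (Function.Involutive.toPerm (fun (v : Fin m → Bool) => fun i => !v i) hinv v) = fun i => !v i := rfl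
      rw [this, mj_not hm]
      congr 1
      apply prod_congr rfl
      intro i _
      exact sg_not a (v i)
    rw [e, htrue (fun b => F (!b))]
    simp [sg]; ring
  · rw [htrue F]
    simp [sg]

theorem wt_id {m : ℕ} (W : Bool → (Fin m → Bool) → ℝ) (θ : Bool) (y : Fin m → Bool) :
    wt W (fun (i : Fin m) u => u i) id θ y = W θ y := by
  unfold wt
  rw [sum_eq_single y]
  · simp
  · intro b _ hb
    rw [if_neg]
    intro h
    exact hb (funext h)
  · intro h; exact absurd (mem_univ _) h

theorem maj3 (h1 : S_bits) (h2 : S_adm) (h3 : S_law) : S_maj3 := by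
  intro p hp hp1 x hx hx1 hR hc
  have hb := h1 p hp hp1 x hR 3
  have hA := h2 p hp hp1 _ _ _ _ hb 1 (fun _ u => mj u) (by
    intro _
    refine ⟨Fin 3, inferInstance, id, mj, fun ω => rfl, ?_, ?_, ?_⟩
    · intro b
      unfold mj
      rw [ones_const]
      cases b <;> simp
    · intro y hy
      rw [wt_id, wt_id, prod_true, prod_false]
      have hy' : 3 < 2 * ones y := of_decide_eq_true hy
      have hle := ones_le y
      generalize ones y = j at hy' hle ⊢
      rcases (by omega : j = 2 ∨ j = 3) with rfl | rfl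
      · norm_num
        have h5 : 0 ≤ (1 - x) * x := by nlinarith
        nlinarith [mul_le_mul_of_nonneg_right hc h5]
      · norm_num
        have h5 : 0 ≤ (1 - x) ^ 2 := by positivity
        have h6 : (1 - x) ^ 2 ≤ x ^ 2 := by nlinarith
        have h7 : 0 ≤ (1 - p) ^ 2 * x := by positivity
        nlinarith [mul_le_mul_of_nonneg_right hc h5, mul_le_mul_of_nonneg_left h6 h7]
    · intro y hy
      rw [wt_id, wt_id, prod_true, prod_false]
      have hy' : ¬ 3 < 2 * ones y := of_decide_eq_false hy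
      have hle := ones_le y
      generalize ones y = j at hy' hle ⊢
      rcases (by omega : j = 0 ∨ j = 1) with rfl | rfl
      · norm_num
        have h5 : 0 ≤ (1 - x) ^ 2 := by positivity
        have h6 : (1 - x) ^ 2 ≤ x ^ 2 := by nlinarith
        have h7 : 0 ≤ (1 - p) ^ 2 * x := by positivity
        nlinarith [mul_le_mul_of_nonneg_right hc h5, mul_le_mul_of_nonneg_left h6 h7]
      · norm_num
        have h5 : 0 ≤ (1 - x) * x := by nlinarith
        nlinarith [mul_le_mul_of_nonneg_right hc h5])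
  refine h3 p _ Bool _ Unit _ _ (fun θ s => sg (3 * x ^ 2 - 2 * x ^ 3) θ s) (fun _ s => s)
    (fun _ => Sum.inr 0) hA ?_
  intro θ F
  have hmaj : ∀ G : Bool → ℝ, ∑ v : Fin 3 → Bool, (∏ i, sg x θ (v i)) * G (mj v) =
      ∑ b : Bool, sg (3 * x ^ 2 - 2 * x ^ 3) θ b * G b := by
    intro G
    rw [sum_cons]
    simp only [sum_cons, Fintype.sum_bool, Fin.prod_univ_succ, Fin.cons_zero, Fin.cons_succ, mj, ones_cons]
    simp only [univ_unique, sum_singleton, ones_eq, univ_eq_empty, sum_empty, prod_empty]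
    cases θ <;> simp [sg] <;> ring
  have := hmaj (fun b => F (fun _ => b))
  simpa using this

theorem pq_ineq {p : ℝ} (hp : 1 / 2 < p) (hp1 : p < 1) {j : ℕ} (h : 7 < 2 * j) (h7 : j ≤ 7) :
    p * ((1 - p) ^ j * p ^ (7 - j)) ≤ (1 - p) * (p ^ j * (1 - p) ^ (7 - j)) := by
  have hq0 : 0 ≤ 1 - p := by linarith
  have hqp : 1 - p ≤ p := by linarith
  have hpq : 0 ≤ p * (1 - p) := by nlinarith
  rcases (by omega : j = 4 ∨ j = 5 ∨ j = 6 ∨ j = 7) with rfl | rfl | rfl | rfl
  · apply le_of_eq; norm_num; ring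
  · have h := mul_le_mul_of_nonneg_left (pow_le_pow_left₀ hq0 hqp 2) (pow_nonneg hpq 3)
    calc p * ((1 - p) ^ 5 * p ^ (7 - 5)) = (p * (1 - p)) ^ 3 * (1 - p) ^ 2 := by norm_num; ring
      _ ≤ (p * (1 - p)) ^ 3 * p ^ 2 := h
      _ = _ := by norm_num; ring
  · have h := mul_le_mul_of_nonneg_left (pow_le_pow_left₀ hq0 hqp 4) (pow_nonneg hpq 2)
    calc p * ((1 - p) ^ 6 * p ^ (7 - 6)) = (p * (1 - p)) ^ 2 * (1 - p) ^ 4 := by norm_num; ring
      _ ≤ (p * (1 - p)) ^ 2 * p ^ 4 := h
      _ = _ := by norm_num; ring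
  · have h := mul_le_mul_of_nonneg_left (pow_le_pow_left₀ hq0 hqp 6) (pow_nonneg hpq 1)
    calc p * ((1 - p) ^ 7 * p ^ (7 - 7)) = (p * (1 - p)) ^ 1 * (1 - p) ^ 6 := by norm_num; ring
      _ ≤ (p * (1 - p)) ^ 1 * p ^ 6 := h
      _ = _ := by norm_num; ring

theorem pq_ineq2 {p : ℝ} (hp : 1 / 2 < p) (hp1 : p < 1) {j : ℕ} (h : ¬ 7 < 2 * j) (h7 : j ≤ 7) :
    p * (p ^ j * (1 - p) ^ (7 - j)) ≤ (1 - p) * ((1 - p) ^ j * p ^ (7 - j)) := by
  have h1 := pq_ineq hp hp1 (j := 7 - j) (by omega) (by omega)
  have h2 : 7 - (7 - j) = j := by omega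
  rw [h2] at h1
  linarith

theorem maj7 (h0 : S_scout) (h1 : S_bits) (h2 : S_agent) (h3 : S_law) (h4 : S_count) : S_maj7 := by
  intro p hp hp1
  have hb := h1 p hp hp1 p (h0 p hp hp1) 6
  have key : ∀ (y : Fin 6 → Bool) (s : Bool) (θ : Bool),
      wt (fun θ (u : Fin 6 → Bool) => ∏ i, sg p θ (u i)) (fun (i : Fin 6) u => u i) id θ y * sg p θ s =
        ∏ i, sg p θ ((Fin.cons s y : Fin 7 → Bool) i) := by
    intro y s θ
    rw [wt_id, Fin.prod_univ_succ (n := 6)]
    simp only [Fin.cons_zero, Fin.cons_succ]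
    ring
  have hA := h2 p hp hp1 _ _ (Fin 6) _ _ id (fun y s => mj (Fin.cons s y : Fin 7 → Bool)) hb (by
    intro b s
    unfold mj
    rw [ones_cons, ones_const]
    cases b <;> cases s <;> simp) (by
    intro y s hy
    rw [key, key, prod_true, prod_false]
    exact pq_ineq hp hp1 (of_decide_eq_true hy) (ones_le _)) (by
    intro y s hy
    rw [key, key, prod_true, prod_false]
    exact pq_ineq2 hp hp1 (of_decide_eq_false hy) (ones_le _))
  refine h3 p _ Bool _ Unit _ _ (fun θ s => sg (maj 7 p) θ s) (fun _ s => s) (fun _ => none) hA ?_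
  intro θ F
  have hmaj := maj_law h4 (show Odd 7 by decide) p θ (fun b => F (fun _ => b))
  rw [← hmaj, sum_cons, Fintype.sum_prod_type, sum_comm]
  apply sum_congr rfl
  intro s _
  apply sum_congr rfl
  intro u _
  rw [Fin.prod_univ_succ (n := 6)]
  simp only [Fin.cons_zero, Fin.cons_succ, Option.elim_none, id]
  ring

end Q75.SL
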